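import Pool.Agent.H610R2.CN.Sieve

set_option autoImplicit false

namespace H610CN

open Finset

lemma odd_cop_four (m : ℕ) (hm : Odd m) : Nat.Coprime m 4 := by
  have : Nat.Coprime m 2 := Nat.Coprime.symm ((Nat.coprime_two_left).mpr hm)
  have h4 : (4 : ℕ) = 2 ^ 2 := by norm_num
  rw [h4]; exact this.pow_right 2

lemma oddfam_sqf (m : ℕ) (hm : Odd m) (h1 : Squarefree m) (h2 : Squarefree (m + 4))
    (h3 : Squarefree (m + 8)) : Squarefree (m * (m + 4) * (m + 8)) := by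
  have hm4 : Odd (m + 4) := by
    obtain ⟨t, rfl⟩ := hm; exact ⟨t + 2, by ring⟩
  have c1 : Nat.Coprime m (m + 4) := by
    rw [Nat.coprime_self_add_right]; exact odd_cop_four m hm
  have c2 : Nat.Coprime m (m + 8) := by
    rw [Nat.coprime_self_add_right]
    have : (8 : ℕ) = 2 ^ 3 := by norm_num
    rw [this]
    exact (Nat.Coprime.symm ((Nat.coprime_two_left).mpr hm)).pow_right 3
  have c3 : Nat.Coprime (m + 4) (m + 8) := by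
    have : m + 8 = (m + 4) + 4 := by ring
    rw [this, Nat.coprime_self_add_right]; exact odd_cop_four _ hm4
  rw [Nat.squarefree_mul (Nat.Coprime.mul_left c2 c3), Nat.squarefree_mul c1]
  exact ⟨⟨h1, h2⟩, h3⟩

lemma oddfam_cong (m : ℕ) (hm : 0 < m) : ∃ a b c : ℚ, 0 < a ∧ 0 < b ∧ 0 < c ∧
    a ^ 2 + b ^ 2 = c ^ 2 ∧ ((m * (m + 4) * (m + 8) : ℕ) : ℚ) = a * b / 2 := by
  have h : (0 : ℚ) < m := by exact_mod_cast hm
  refine ⟨m * (m + 8) / 2, 4 * (m + 4), (m ^ 2 + 8 * m + 32) / 2, by positivity, by positivity,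
    by positivity, by ring, ?_⟩
  push_cast; ring

lemma evenfam_sqf (m : ℕ) (hm : Odd m) (h1 : Squarefree m) (h2 : Squarefree (m + 1))
    (h3 : Squarefree (m + 2)) : Squarefree (m * (m + 1) * (m + 2)) := by
  have c1 : Nat.Coprime m (m + 1) := by
    rw [Nat.coprime_self_add_right]; exact Nat.coprime_one_right m
  have c2 : Nat.Coprime m (m + 2) := by
    rw [Nat.coprime_self_add_right]
    exact (Nat.Coprime.symm ((Nat.coprime_two_left).mpr hm))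
  have c3 : Nat.Coprime (m + 1) (m + 2) := by
    have : m + 2 = (m + 1) + 1 := by ring
    rw [this, Nat.coprime_self_add_right]; exact Nat.coprime_one_right _
  rw [Nat.squarefree_mul (Nat.Coprime.mul_left c2 c3), Nat.squarefree_mul c1]
  exact ⟨⟨h1, h2⟩, h3⟩

lemma evenfam_cong (m : ℕ) (hm : 0 < m) : ∃ a b c : ℚ, 0 < a ∧ 0 < b ∧ 0 < c ∧
    a ^ 2 + b ^ 2 = c ^ 2 ∧ ((m * (m + 1) * (m + 2) : ℕ) : ℚ) = a * b / 2 := by
  have h : (0 : ℚ) < m := by exact_mod_cast hm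
  refine ⟨m * (m + 2), 2 * (m + 1), m ^ 2 + 2 * m + 2, by positivity, by positivity,
    by positivity, by ring, ?_⟩
  push_cast; ring

/-- odd residue classes -/
theorem odd_classes : ∃ C : ℝ, 0 < C ∧ ∀ X : ℝ, 1 ≤ X → ∀ j : ℕ, Odd j → j < 8 →
    ∃ n : ℕ, X ≤ n ∧ (n : ℝ) ≤ X + C * X ^ (5 / 6 : ℝ) ∧ Squarefree n ∧ n % 8 = j ∧
      ∃ a b c : ℚ, 0 < a ∧ 0 < b ∧ 0 < c ∧ a ^ 2 + b ^ 2 = c ^ 2 ∧ (n : ℚ) = a * b / 2 := by
  refine ⟨3 * 10811 + 3 * 10811 ^ 2 + 10811 ^ 3, by norm_num, ?_⟩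
  intro X hX j hj hj8
  obtain ⟨k0, hk0⟩ : ∃ k0 : ℕ, k0 = ⌈(X ^ (1 / 6 : ℝ)) ^ 2 / 8⌉₊ + 676 := ⟨_, rfl⟩
  have hX0 : (0 : ℝ) ≤ X := by linarith
  have e1 : (X ^ (1 / 6 : ℝ)) ^ 2 / 8 ≤ (⌈(X ^ (1 / 6 : ℝ)) ^ 2 / 8⌉₊ : ℝ) := Nat.le_ceil _
  have e2 : (⌈(X ^ (1 / 6 : ℝ)) ^ 2 / 8⌉₊ : ℝ) < (X ^ (1 / 6 : ℝ)) ^ 2 / 8 + 1 :=
    Nat.ceil_lt_add_one (by positivity)
  have e3 : (k0 : ℝ) = (⌈(X ^ (1 / 6 : ℝ)) ^ 2 / 8⌉₊ : ℝ) + 676 := by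
    rw [hk0, Nat.cast_add]; norm_num
  have hge : 676 ≤ k0 := by rw [hk0]; exact Nat.le_add_left _ _
  obtain ⟨k, h1, h2, h3⟩ := good k0 hge {j + 4, j + 8, j + 12} (Finset.card_le_three) (by
    intro c hc
    simp only [mem_insert, mem_singleton] at hc
    omega)
  have hodd : Odd (8 * k + (j + 4)) := by
    obtain ⟨t, rfl⟩ := hj
    exact ⟨4 * k + t + 2, by ring⟩
  have hb := bounds X hX k0 k (by linarith) (by linarith) h1 h2 (j + 4) (j + 8) (j + 12)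
    (by omega) (by omega) (by omega)
  have hf : (8 * k + (j + 4)) * (8 * k + (j + 8)) * (8 * k + (j + 12)) =
      (8 * k + (j + 4)) * (8 * k + (j + 4) + 4) * (8 * k + (j + 4) + 8) := by ring
  refine ⟨(8 * k + (j + 4)) * (8 * k + (j + 8)) * (8 * k + (j + 12)), hb.1, hb.2, ?_, ?_, ?_⟩
  · rw [hf]
    apply oddfam_sqf _ hodd
    · exact sqf _ (by obtain ⟨t, rfl⟩ := hj; omega) (h3 (j + 4) (by simp))
    · have := sqf (8 * k + (j + 8)) (by obtain ⟨t, rfl⟩ := hj; omega) (h3 (j + 8) (by simp))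
      have e : 8 * k + (j + 4) + 4 = 8 * k + (j + 8) := by ring
      rw [e]; exact this
    · have := sqf (8 * k + (j + 12)) (by obtain ⟨t, rfl⟩ := hj; omega) (h3 (j + 12) (by simp))
      have e : 8 * k + (j + 4) + 8 = 8 * k + (j + 12) := by ring
      rw [e]; exact this
  · have hj' : j = 1 ∨ j = 3 ∨ j = 5 ∨ j = 7 := by
      obtain ⟨t, rfl⟩ := hj; omega
    rcases hj' with rfl | rfl | rfl | rfl <;> simp [Nat.mul_mod, Nat.add_mod]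
  · rw [hf]
    exact oddfam_cong _ hodd.pos

/-- even residue classes -/
theorem even_classes : ∃ C : ℝ, 0 < C ∧ ∀ X : ℝ, 1 ≤ X → ∀ j : ℕ, j = 2 ∨ j = 6 →
    ∃ n : ℕ, X ≤ n ∧ (n : ℝ) ≤ X + C * X ^ (5 / 6 : ℝ) ∧ Squarefree n ∧ n % 8 = j ∧
      ∃ a b c : ℚ, 0 < a ∧ 0 < b ∧ 0 < c ∧ a ^ 2 + b ^ 2 = c ^ 2 ∧ (n : ℚ) = a * b / 2 := by
  refine ⟨3 * 10811 + 3 * 10811 ^ 2 + 10811 ^ 3, by norm_num, ?_⟩
  intro X hX j hj
  obtain ⟨i, hi⟩ : ∃ i : ℕ, (i = 5 ∧ j = 2) ∨ (i = 1 ∧ j = 6) := by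
    rcases hj with rfl | rfl
    · exact ⟨5, Or.inl ⟨rfl, rfl⟩⟩
    · exact ⟨1, Or.inr ⟨rfl, rfl⟩⟩
  obtain ⟨k0, hk0⟩ : ∃ k0 : ℕ, k0 = ⌈(X ^ (1 / 6 : ℝ)) ^ 2 / 8⌉₊ + 676 := ⟨_, rfl⟩
  have hX0 : (0 : ℝ) ≤ X := by linarith
  have e1 : (X ^ (1 / 6 : ℝ)) ^ 2 / 8 ≤ (⌈(X ^ (1 / 6 : ℝ)) ^ 2 / 8⌉₊ : ℝ) := Nat.le_ceil _
  have e2 : (⌈(X ^ (1 / 6 : ℝ)) ^ 2 / 8⌉₊ : ℝ) < (X ^ (1 / 6 : ℝ)) ^ 2 / 8 + 1 :=
    Nat.ceil_lt_add_one (by positivity)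
  have e3 : (k0 : ℝ) = (⌈(X ^ (1 / 6 : ℝ)) ^ 2 / 8⌉₊ : ℝ) + 676 := by
    rw [hk0, Nat.cast_add]; norm_num
  have hge : 676 ≤ k0 := by rw [hk0]; exact Nat.le_add_left _ _
  obtain ⟨k, h1, h2, h3⟩ := good k0 hge {i, i + 1, i + 2} (Finset.card_le_three) (by
    intro c hc
    simp only [mem_insert, mem_singleton] at hc
    omega)
  have hodd : Odd (8 * k + i) := by
    rcases hi with ⟨rfl, _⟩ | ⟨rfl, _⟩
    · exact ⟨4 * k + 2, by ring⟩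
    · exact ⟨4 * k, by ring⟩
  have hb := bounds X hX k0 k (by linarith) (by linarith) h1 h2 i (i + 1) (i + 2)
    (by omega) (by omega) (by omega)
  have hf : (8 * k + i) * (8 * k + (i + 1)) * (8 * k + (i + 2)) =
      (8 * k + i) * (8 * k + i + 1) * (8 * k + i + 2) := by ring
  refine ⟨(8 * k + i) * (8 * k + (i + 1)) * (8 * k + (i + 2)), hb.1, hb.2, ?_, ?_, ?_⟩
  · rw [hf]
    apply evenfam_sqf _ hodd
    · exact sqf _ (by omega) (h3 i (by simp))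
    · have := sqf (8 * k + (i + 1)) (by omega) (h3 (i + 1) (by simp))
      have e : 8 * k + i + 1 = 8 * k + (i + 1) := by ring
      rw [e]; exact this
    · have := sqf (8 * k + (i + 2)) (by omega) (h3 (i + 2) (by simp))
      have e : 8 * k + i + 2 = 8 * k + (i + 2) := by ring
      rw [e]; exact this
  · rcases hi with ⟨rfl, rfl⟩ | ⟨rfl, rfl⟩ <;> simp [Nat.mul_mod, Nat.add_mod]
  · rw [hf]
    exact evenfam_cong _ hodd.pos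

end H610CN
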