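import Mathlib

set_option autoImplicit false

namespace H610CN

open Finset

/-- the indices `k` in an interval for which `n^2` divides `8 k + c` lie in one residue class -/
lemma class_card (n c k0 K : ℕ) (hn : Odd n) (hn0 : 1 ≤ n) :
    ((Ico k0 (k0 + K)).filter (fun k => n ^ 2 ∣ 8 * k + c)).card ≤ K / n ^ 2 + 1 := by
  have hN : 0 < n ^ 2 := by positivity
  have hcop : Nat.Coprime (n ^ 2) 8 := by
    have : Nat.Coprime n 2 := Nat.Coprime.symm ((Nat.coprime_two_left).mpr hn)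
    have h8 : (8 : ℕ) = 2 ^ 3 := by norm_num
    rw [h8]
    exact Nat.Coprime.pow _ _ this
  have hinj : Set.InjOn (fun k => (k - k0) / n ^ 2)
      ((Ico k0 (k0 + K)).filter (fun k => n ^ 2 ∣ 8 * k + c) : Finset ℕ) := by
    have key : ∀ a b : ℕ, a ≤ b → k0 ≤ a → n ^ 2 ∣ 8 * a + c → n ^ 2 ∣ 8 * b + c →
        (a - k0) / n ^ 2 = (b - k0) / n ^ 2 → a = b := by
      intro a b hle hka hda hdb hab
      have hd : n ^ 2 ∣ b - a := by
        have h1 : n ^ 2 ∣ (8 * b + c) - (8 * a + c) := Nat.dvd_sub hdb hda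
        have h2 : (8 * b + c) - (8 * a + c) = (b - a) * 8 := by omega
        rw [h2] at h1
        exact hcop.dvd_of_dvd_mul_right h1
      obtain ⟨t, ht⟩ := hd
      have hb' : b - k0 = (a - k0) + n ^ 2 * t := by omega
      rw [hb', Nat.add_mul_div_left _ _ hN] at hab
      have : t = 0 := by omega
      rw [this, mul_zero] at ht
      omega
    intro a ha b hb hab
    simp only [coe_filter, mem_Ico, Set.mem_ofPred_eq] at ha hb
    simp only at hab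
    rcases le_total a b with h | h
    · exact key a b h ha.1.1 ha.2 hb.2 hab
    · exact (key b a h hb.1.1 hb.2 ha.2 hab.symm).symm
  calc ((Ico k0 (k0 + K)).filter (fun k => n ^ 2 ∣ 8 * k + c)).card
      = (((Ico k0 (k0 + K)).filter (fun k => n ^ 2 ∣ 8 * k + c)).image
          (fun k => (k - k0) / n ^ 2)).card := (card_image_of_injOn hinj).symm
    _ ≤ (range (K / n ^ 2 + 1)).card := by
        apply card_le_card
        intro x hx
        simp only [mem_image, mem_filter, mem_Ico] at hx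
        obtain ⟨k, ⟨⟨h1, h2⟩, _⟩, rfl⟩ := hx
        rw [mem_range, Nat.lt_succ_iff]
        exact Nat.div_le_div_right (by omega)
    _ = K / n ^ 2 + 1 := card_range _

lemma tele (M : ℕ) : ∑ m ∈ Icc 1 M, (1 : ℝ) / ((2 * m + 1 : ℕ) : ℝ) ^ 2 ≤
    1 / 4 * (1 - 1 / ((M : ℝ) + 1)) := by
  induction M with
  | zero => simp
  | succ M ih =>
    rw [Finset.sum_Icc_succ_top (by omega)]
    have hM : (0 : ℝ) ≤ M := Nat.cast_nonneg _
    have h : (1 : ℝ) / ((2 * (M + 1) + 1 : ℕ) : ℝ) ^ 2 ≤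
        1 / 4 * (1 / ((M : ℝ) + 1) - 1 / ((M : ℝ) + 1 + 1)) := by
      have e : 1 / 4 * (1 / ((M : ℝ) + 1) - 1 / ((M : ℝ) + 1 + 1)) =
          1 / (4 * (((M : ℝ) + 1) * ((M : ℝ) + 1 + 1))) := by
        field_simp; ring
      rw [e]
      apply one_div_le_one_div_of_le (by positivity)
      push_cast
      nlinarith
    push_cast at h ih ⊢
    linarith

/-- the sieve -/
lemma sieve (k0 K M : ℕ) (hMK : 12 * M < K) (S : Finset ℕ) (hS : S.card ≤ 3) :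
    ∃ k, k0 ≤ k ∧ k < k0 + K ∧ ∀ c ∈ S, ∀ m, 1 ≤ m → m ≤ M → ¬ (2 * m + 1) ^ 2 ∣ 8 * k + c := by
  by_contra hcon
  push Not at hcon
  have hcov : Ico k0 (k0 + K) ⊆ (Icc 1 M).biUnion (fun m => S.biUnion (fun c =>
      (Ico k0 (k0 + K)).filter (fun k => (2 * m + 1) ^ 2 ∣ 8 * k + c))) := by
    intro k hk
    have hk' := mem_Ico.mp hk
    obtain ⟨c, hc, m, hm1, hm2, hd⟩ := hcon k hk'.1 hk'.2
    simp only [mem_biUnion, mem_Icc, mem_filter]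
    exact ⟨m, ⟨hm1, hm2⟩, c, hc, hk, hd⟩
  have h1 : K ≤ ∑ m ∈ Icc 1 M, 3 * (K / (2 * m + 1) ^ 2 + 1) := by
    have h := card_le_card hcov
    rw [Nat.card_Ico, Nat.add_sub_cancel_left] at h
    refine h.trans (card_biUnion_le.trans ?_)
    apply Finset.sum_le_sum
    intro m _
    refine card_biUnion_le.trans ?_
    calc ∑ c ∈ S, ((Ico k0 (k0 + K)).filter (fun k => (2 * m + 1) ^ 2 ∣ 8 * k + c)).card
        ≤ ∑ c ∈ S, (K / (2 * m + 1) ^ 2 + 1) :=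
          Finset.sum_le_sum (fun c _ => class_card _ _ _ _ ⟨m, rfl⟩ (by omega))
      _ = S.card * (K / (2 * m + 1) ^ 2 + 1) := by rw [sum_const, smul_eq_mul]
      _ ≤ 3 * (K / (2 * m + 1) ^ 2 + 1) := Nat.mul_le_mul_right _ hS
  have h2 : (K : ℝ) ≤ ∑ m ∈ Icc 1 M, (3 * ((K : ℝ) * (1 / ((2 * m + 1 : ℕ) : ℝ) ^ 2) + 1)) := by
    have h3 : (K : ℝ) ≤ ((∑ m ∈ Icc 1 M, 3 * (K / (2 * m + 1) ^ 2 + 1) : ℕ) : ℝ) := by
      exact_mod_cast h1
    refine h3.trans ?_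
    rw [Nat.cast_sum]
    apply Finset.sum_le_sum
    intro m _
    have h4 : ((K / (2 * m + 1) ^ 2 : ℕ) : ℝ) ≤ (K : ℝ) * (1 / ((2 * m + 1 : ℕ) : ℝ) ^ 2) := by
      refine Nat.cast_div_le.trans (le_of_eq ?_)
      push_cast; ring
    rw [Nat.cast_mul, Nat.cast_add, Nat.cast_one]
    have h5 : ((3 : ℕ) : ℝ) = 3 := by norm_num
    rw [h5]
    linarith
  have h6 : ∑ m ∈ Icc 1 M, (3 * ((K : ℝ) * (1 / ((2 * m + 1 : ℕ) : ℝ) ^ 2) + 1)) =
      3 * (K * ∑ m ∈ Icc 1 M, (1 : ℝ) / ((2 * m + 1 : ℕ) : ℝ) ^ 2) + 3 * M := by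
    rw [← Finset.mul_sum, Finset.sum_add_distrib, ← Finset.mul_sum]
    simp; ring
  rw [h6] at h2
  have h7 := tele M
  have hM0 : (0 : ℝ) ≤ 1 / ((M : ℝ) + 1) := by positivity
  have h8 : ∑ m ∈ Icc 1 M, (1 : ℝ) / ((2 * m + 1 : ℕ) : ℝ) ^ 2 ≤ 1 / 4 := by linarith
  have hK : (0 : ℝ) ≤ K := Nat.cast_nonneg _
  have h9 : (K : ℝ) * ∑ m ∈ Icc 1 M, (1 : ℝ) / ((2 * m + 1 : ℕ) : ℝ) ^ 2 ≤ K * (1 / 4) :=
    mul_le_mul_of_nonneg_left h8 hK
  have h10 : (12 * M : ℝ) < K := by exact_mod_cast hMK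
  linarith

/-- for every large `k0` there is an index `k` in `[k0, k0 + 24 u)`, `u` about `sqrt k0`, such that
no odd square divides `8 k + c`, `c ∈ S` -/
lemma good (k0 : ℕ) (hk0 : 676 ≤ k0) (S : Finset ℕ) (hS : S.card ≤ 3) (hS2 : ∀ c ∈ S, c ≤ 19) :
    ∃ k, k0 ≤ k ∧ k < k0 + 24 * (Nat.sqrt k0 + 1) ∧
      ∀ c ∈ S, ∀ n, Odd n → 3 ≤ n → ¬ n ^ 2 ∣ 8 * k + c := by
  set s := Nat.sqrt k0 with hs
  have hs1 : k0 < (s + 1) * (s + 1) := Nat.lt_succ_sqrt k0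
  have hs2 : 26 ≤ s := Nat.le_sqrt.mpr (by omega)
  set T := 2 * (k0 + 24 * (s + 1)) + 5 with hT
  set M := Nat.sqrt T + 1 with hM
  have hM1 : T < M * M := Nat.lt_succ_sqrt T
  have hM2 : 12 * M < 24 * (s + 1) := by
    have h1 : Nat.sqrt T < 2 * (s + 1) - 1 := by
      rw [Nat.sqrt_lt]
      have : 2 * (s + 1) - 1 = 2 * s + 1 := by omega
      rw [this, hT]
      nlinarith
    omega
  obtain ⟨k, h1, h2, h3⟩ := sieve k0 (24 * (s + 1)) M hM2 S hS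
  refine ⟨k, h1, h2, ?_⟩
  intro c hc n hn hn3 hdvd
  obtain ⟨m, rfl⟩ := hn
  by_cases hm : m ≤ M
  · exact h3 c hc m (by omega) hm hdvd
  · push Not at hm
    have hc19 := hS2 c hc
    have h4 : (2 * m + 1) ^ 2 ≤ 8 * k + c := by
      rcases Nat.eq_zero_or_pos (8 * k + c) with h0 | h0
      · omega
      · exact Nat.le_of_dvd h0 hdvd
    have h5 : 4 * (M * M) ≤ (2 * m + 1) ^ 2 := by nlinarith
    have h6 : 8 * k + c ≤ 4 * T := by omega
    omega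

/-- squarefreeness -/
lemma sqf (v : ℕ) (h4 : v % 4 ≠ 0) (h : ∀ n, Odd n → 3 ≤ n → ¬ n ^ 2 ∣ v) : Squarefree v := by
  rw [Nat.squarefree_iff_prime_squarefree]
  intro p hp hpp
  rcases hp.eq_two_or_odd' with rfl | hodd
  · omega
  · have : 3 ≤ p := by
      have := hp.two_le
      rcases hodd with ⟨t, rfl⟩
      omega
    exact h p hodd this (by rw [pow_two]; exact hpp)

/-- bounds for a product of three linear forms -/
lemma bounds (X : ℝ) (hX : 1 ≤ X) (k0 k : ℕ)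
    (hka : (X ^ (1 / 6 : ℝ)) ^ 2 / 8 ≤ (k0 : ℝ)) (hkb : (k0 : ℝ) ≤ (X ^ (1 / 6 : ℝ)) ^ 2 / 8 + 677)
    (h1 : k0 ≤ k) (h2 : k < k0 + 24 * (Nat.sqrt k0 + 1))
    (a b c : ℕ) (ha : a ≤ 19) (hb : b ≤ 19) (hc : c ≤ 19) :
    X ≤ (((8 * k + a) * (8 * k + b) * (8 * k + c) : ℕ) : ℝ) ∧
    (((8 * k + a) * (8 * k + b) * (8 * k + c) : ℕ) : ℝ) ≤
      X + (3 * 10811 + 3 * 10811 ^ 2 + 10811 ^ 3) * X ^ (5 / 6 : ℝ) := by
  have hX0 : (0 : ℝ) ≤ X := by linarith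
  set Z : ℝ := X ^ (1 / 6 : ℝ) with hZ
  have hZ1 : 1 ≤ Z := Real.one_le_rpow hX (by norm_num)
  have hZ6 : Z ^ 6 = X := by
    rw [hZ, ← Real.rpow_natCast, ← Real.rpow_mul hX0]; norm_num
  have hZ5 : Z ^ 5 = X ^ (5 / 6 : ℝ) := by
    rw [hZ, ← Real.rpow_natCast, ← Real.rpow_mul hX0]; norm_num
  clear_value Z
  have hkR : (k0 : ℝ) ≤ k := by exact_mod_cast h1
  have hlow : Z ^ 2 ≤ 8 * (k : ℝ) := by linarith
  have hs : (Nat.sqrt k0 : ℝ) ≤ 27 * Z := by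
    have h3 : Nat.sqrt k0 * Nat.sqrt k0 ≤ k0 := Nat.sqrt_le k0
    have h4 : (Nat.sqrt k0 : ℝ) * (Nat.sqrt k0 : ℝ) ≤ k0 := by exact_mod_cast h3
    have h5 : (k0 : ℝ) ≤ 729 * Z ^ 2 := by nlinarith
    nlinarith
  have hkU : (k : ℝ) < k0 + 24 * ((Nat.sqrt k0 : ℝ) + 1) := by exact_mod_cast h2
  have hup : 8 * (k : ℝ) + 19 ≤ Z ^ 2 + 10811 * Z := by linarith
  have haR : (a : ℝ) ≤ 19 := by exact_mod_cast ha
  have hbR : (b : ℝ) ≤ 19 := by exact_mod_cast hb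
  have hcR : (c : ℝ) ≤ 19 := by exact_mod_cast hc
  have ha0 : (0 : ℝ) ≤ a := Nat.cast_nonneg _
  have hb0 : (0 : ℝ) ≤ b := Nat.cast_nonneg _
  have hc0 : (0 : ℝ) ≤ c := Nat.cast_nonneg _
  have hk0' : (0 : ℝ) ≤ k := Nat.cast_nonneg _
  have hZ2 : 0 ≤ Z ^ 2 := by positivity
  push_cast
  constructor
  · calc X = Z ^ 2 * Z ^ 2 * Z ^ 2 := by rw [← hZ6]; ring
      _ ≤ (8 * (k : ℝ) + a) * (8 * k + b) * (8 * k + c) := by
          apply mul_le_mul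
          · apply mul_le_mul <;> first | linarith | positivity
          · linarith
          · positivity
          · positivity
  · calc (8 * (k : ℝ) + a) * (8 * k + b) * (8 * k + c)
        ≤ (Z ^ 2 + 10811 * Z) * (Z ^ 2 + 10811 * Z) * (Z ^ 2 + 10811 * Z) := by
          apply mul_le_mul
          · apply mul_le_mul <;> first | linarith | positivity
          · linarith
          · positivity
          · positivity
      _ = Z ^ 6 + 3 * 10811 * Z ^ 5 + 3 * 10811 ^ 2 * Z ^ 4 + 10811 ^ 3 * Z ^ 3 := by ring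
      _ ≤ Z ^ 6 + (3 * 10811 + 3 * 10811 ^ 2 + 10811 ^ 3) * Z ^ 5 := by
          have e1 : Z ^ 4 ≤ Z ^ 5 := pow_le_pow_right₀ hZ1 (by norm_num)
          have e2 : Z ^ 3 ≤ Z ^ 5 := pow_le_pow_right₀ hZ1 (by norm_num)
          nlinarith
      _ = X + (3 * 10811 + 3 * 10811 ^ 2 + 10811 ^ 3) * X ^ (5 / 6 : ℝ) := by rw [hZ6, hZ5]

end H610CN
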